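import Pool.Agent.H250R3.Berg.Stmts

/-!
# Project H250-BERG: assembly
-/

set_option autoImplicit false

open Polynomial MeasureTheory
open scoped ComplexConjugate

namespace Pool.Agent.H250R3.Berg

/-- The complex polynomial `z^k h(z^N)`. -/
noncomputable def lift (N k : ℕ) (h : ℝ[X]) : ℂ[X] := X ^ k * (h.map Complex.ofRealHom).comp (X ^ N)

/-- `Orth` in terms of an integral functional. -/
noncomputable def func (N k : ℕ) (ζ : ℂ) (m : ℕ) (h : ℝ[X]) : ℝ :=
  ∫ t in (0 : ℝ)..1, t ^ k * h.eval (t ^ N) * (U ζ 0 (N * m + k + 1)).eval (1 - t)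

lemma func_cont (N k : ℕ) (ζ : ℂ) (m : ℕ) (h : ℝ[X]) :
    Continuous fun t : ℝ => t ^ k * h.eval (t ^ N) * (U ζ 0 (N * m + k + 1)).eval (1 - t) := by
  refine ((continuous_pow k).mul ?_).mul ?_
  · exact h.continuous.comp (continuous_pow N)
  · exact (U ζ 0 (N * m + k + 1)).continuous.comp (continuous_const.sub continuous_id)

lemma func_add (N k : ℕ) (ζ : ℂ) (m : ℕ) (h h' : ℝ[X]) :
    func N k ζ m (h + h') = func N k ζ m h + func N k ζ m h' := by
  unfold func
  rw [← intervalIntegral.integral_add ((func_cont N k ζ m h).intervalIntegrable _ _)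
    ((func_cont N k ζ m h').intervalIntegrable _ _)]
  refine intervalIntegral.integral_congr fun t _ => ?_
  simp only [eval_add]
  ring

lemma func_C_mul (N k : ℕ) (ζ : ℂ) (m : ℕ) (A : ℝ) (h : ℝ[X]) :
    func N k ζ m (C A * h) = A * func N k ζ m h := by
  unfold func
  rw [← intervalIntegral.integral_const_mul]
  refine intervalIntegral.integral_congr fun t _ => ?_
  simp only [eval_mul, eval_C]
  ring

lemma func_smul (N k : ℕ) (ζ : ℂ) (m : ℕ) (A : ℝ) (h : ℝ[X]) :
    func N k ζ m (A • h) = A * func N k ζ m h := by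
  rw [smul_eq_C_mul, func_C_mul]

lemma orth_iff (N k : ℕ) (ζ : ℂ) (j : ℕ) (h : ℝ[X]) :
    Orth N k ζ j h ↔ ∀ m < j, func N k ζ m h = 0 := Iff.rfl

lemma adm_pow {N : ℕ} {ζ : ℂ} (hN : Adm N ζ) : IsPrimitiveRoot ζ N := by
  rcases hN with ⟨rfl, rfl⟩ | ⟨rfl, rfl⟩
  · have h2 : (⟨-1 / 2, √3 / 2⟩ : ℂ) ^ 2 = ⟨-1 / 2, -(√3 / 2)⟩ := by
      have h3 : √3 * √3 = 3 := Real.mul_self_sqrt (by norm_num)
      rw [pow_two]
      apply Complex.ext
      · simp only [Complex.mul_re]
        nlinarith
      · simp only [Complex.mul_im]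
        ring
    have h3 : (⟨-1 / 2, √3 / 2⟩ : ℂ) ^ 3 = 1 := by
      have h3 : √3 * √3 = 3 := Real.mul_self_sqrt (by norm_num)
      rw [pow_succ, h2]
      apply Complex.ext
      · simp only [Complex.mul_re, Complex.one_re]
        nlinarith
      · simp only [Complex.mul_im, Complex.one_im]
        ring
    refine IsPrimitiveRoot.mk_of_lt _ (by norm_num) h3 fun l hl0 hl3 h => ?_
    interval_cases l
    · have := congrArg Complex.re h
      simp only [pow_one, Complex.one_re] at this
      norm_num at this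
    · rw [h2] at h
      have := congrArg Complex.re h
      simp only [Complex.one_re] at this
      norm_num at this
  · refine IsPrimitiveRoot.mk_of_lt _ (by norm_num) Complex.I_pow_four fun l hl0 hl3 h => ?_
    interval_cases l
    · have := congrArg Complex.re h
      simp at this
    · have := congrArg Complex.re h
      rw [Complex.I_sq] at this
      norm_num at this
    · have := congrArg Complex.re h
      rw [pow_succ, Complex.I_sq] at this
      norm_num at this

lemma adm_norm {N : ℕ} {ζ : ℂ} (hN : Adm N ζ) : ζ * conj ζ = 1 := by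
  rcases hN with ⟨rfl, rfl⟩ | ⟨rfl, rfl⟩
  · have h3 : √3 * √3 = 3 := Real.mul_self_sqrt (by norm_num)
    rw [Complex.mul_conj]
    have : Complex.normSq ⟨-1 / 2, √3 / 2⟩ = 1 := by
      simp only [Complex.normSq_mk]
      nlinarith
    rw [this]
    simp
  · simp

lemma adm_pos {N : ℕ} {ζ : ℂ} (hN : Adm N ζ) : 0 < N := by
  rcases hN with ⟨rfl, rfl⟩ | ⟨rfl, rfl⟩ <;> norm_num

lemma adm_im {N : ℕ} {ζ : ℂ} (hN : Adm N ζ) : 0 < ζ.im := by
  rcases hN with ⟨rfl, rfl⟩ | ⟨rfl, rfl⟩
  · have : (0 : ℝ) < √3 := Real.sqrt_pos.mpr (by norm_num)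
    simp only
    linarith
  · simp

lemma adm_modEq {N : ℕ} {ζ : ℂ} (hN : Adm N ζ) {k l : ℕ} (h : ζ ^ k * conj ζ ^ l = 1) :
    l % N = k % N := by
  have hp := adm_pow hN
  have h1 : ζ ^ k = ζ ^ l := by
    have h2 : ζ ^ l * conj ζ ^ l = 1 := by rw [← mul_pow, adm_norm hN, one_pow]
    have h3 : conj ζ ^ l ≠ 0 := by
      intro h0
      rw [h0, mul_zero] at h2
      exact zero_ne_one h2
    exact mul_right_cancel₀ h3 (h.trans h2.symm)
  have hk : ζ ^ (k % N) = ζ ^ (l % N) := by
    rw [← pow_mod_orderOf ζ k, ← pow_mod_orderOf ζ l, ← hp.eq_orderOf] at h1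
    exact h1
  exact (hp.pow_inj (Nat.mod_lt _ (adm_pos hN)) (Nat.mod_lt _ (adm_pos hN)) hk).symm

/-- The double integral functional. -/
noncomputable def J (ζ : ℂ) (g : ℂ → ℂ) : ℂ :=
  ∫ x in (0 : ℝ)..1, ∫ y in (0 : ℝ)..(1 - x), g ((x : ℂ) + y * ζ)

lemma J_inner_cont (ζ : ℂ) {g : ℂ → ℂ} (hg : Continuous g) :
    Continuous fun x : ℝ => ∫ y in (0 : ℝ)..(1 - x), g ((x : ℂ) + y * ζ) := by
  refine intervalIntegral.continuous_parametric_intervalIntegral_of_continuous
    (f := fun (x y : ℝ) => g ((x : ℂ) + y * ζ)) ?_ (continuous_const.sub continuous_id)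
  refine hg.comp ?_
  exact ((Complex.continuous_ofReal.comp continuous_fst).add
    ((Complex.continuous_ofReal.comp continuous_snd).mul continuous_const))

lemma J_inner_int (ζ : ℂ) {g : ℂ → ℂ} (hg : Continuous g) (x a b : ℝ) :
    IntervalIntegrable (fun y : ℝ => g ((x : ℂ) + y * ζ)) volume a b := by
  refine (hg.comp ?_).intervalIntegrable _ _
  exact continuous_const.add (Complex.continuous_ofReal.mul continuous_const)

lemma J_add (ζ : ℂ) {g g' : ℂ → ℂ} (hg : Continuous g) (hg' : Continuous g') :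
    J ζ (fun z => g z + g' z) = J ζ g + J ζ g' := by
  unfold J
  rw [← intervalIntegral.integral_add ((J_inner_cont ζ hg).intervalIntegrable _ _)
    ((J_inner_cont ζ hg').intervalIntegrable _ _)]
  refine intervalIntegral.integral_congr fun x _ => ?_
  exact intervalIntegral.integral_add (J_inner_int ζ hg x _ _) (J_inner_int ζ hg' x _ _)

lemma J_mul (ζ c : ℂ) (g : ℂ → ℂ) : J ζ (fun z => c * g z) = c * J ζ g := by
  unfold J
  simp only [intervalIntegral.integral_const_mul]

lemma lift_eval (N k : ℕ) (h : ℝ[X]) (z : ℂ) :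
    (lift N k h).eval z = z ^ k * (h.map Complex.ofRealHom).eval (z ^ N) := by
  simp [lift, eval_comp]

lemma lift_add (N k : ℕ) (h h' : ℝ[X]) : lift N k (h + h') = lift N k h + lift N k h' := by
  simp [lift, mul_add]

lemma poly_cont (p : ℂ[X]) : Continuous fun z : ℂ => p.eval z := p.continuous

/-- The moment identity on the triangle. -/
lemma J_lift (hCalc : TaskCalc) {N : ℕ} {ζ : ℂ} (hN : Adm N ζ) (k m : ℕ) (h : ℝ[X]) :
    (((N * m + k : ℕ) : ℂ) + 1) * (conj ζ - ζ) *
      J ζ (fun z => (lift N k h).eval z * conj z ^ (N * m + k)) =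
      -2 * Complex.I * ((func N k ζ m h : ℝ) : ℂ) := by
  induction h using Polynomial.induction_on' with
  | add p q hp hq =>
    have e : (fun z => (lift N k (p + q)).eval z * conj z ^ (N * m + k)) =
        fun z => (lift N k p).eval z * conj z ^ (N * m + k) +
          (lift N k q).eval z * conj z ^ (N * m + k) := by
      funext z
      rw [lift_add, eval_add, add_mul]
    have hc : Continuous fun z : ℂ => conj z ^ (N * m + k) := Complex.continuous_conj.pow _
    have key := J_add ζ (g := fun z => (lift N k p).eval z * conj z ^ (N * m + k))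
      (g' := fun z => (lift N k q).eval z * conj z ^ (N * m + k))
      ((poly_cont _).mul hc) ((poly_cont _).mul hc)
    rw [e, key, mul_add, hp, hq, func_add]
    push_cast
    ring
  | monomial i c =>
    have e : (fun z => (lift N k (monomial i c)).eval z * conj z ^ (N * m + k)) =
        fun z => (c : ℂ) * (z ^ (N * i + k) * conj z ^ (N * m + k)) := by
      funext z
      rw [lift_eval, map_monomial, eval_monomial, ← pow_mul, pow_add]
      simp only [Complex.ofRealHom_eq_coe]
      ring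
    have hJ := hCalc N ζ hN (N * i + k) (N * m + k) (by
      unfold Nat.ModEq
      simp [Nat.add_mod])
    have e2 : J ζ (fun z => z ^ (N * i + k) * conj z ^ (N * m + k)) =
        ∫ x in (0 : ℝ)..1, ∫ y in (0 : ℝ)..(1 - x),
        ((x : ℂ) + y * ζ) ^ (N * i + k) * (conj ((x : ℂ) + y * ζ)) ^ (N * m + k) := rfl
    have e3 : func N k ζ m (monomial i c) =
        c * ∫ t in (0 : ℝ)..1, t ^ (N * i + k) * (U ζ 0 (N * m + k + 1)).eval (1 - t) := by
      unfold func
      rw [← intervalIntegral.integral_const_mul]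
      refine intervalIntegral.integral_congr fun t _ => ?_
      simp only [eval_monomial, ← pow_mul, pow_add]
      ring
    rw [e, J_mul, e3, e2]
    push_cast
    push_cast at hJ
    linear_combination (c : ℂ) * hJ

/-- The integral over the domain. -/
lemma int_lift (hCalc : TaskCalc) (hDec : TaskDecomp) {N : ℕ} {ζ : ℂ} (hN : Adm N ζ)
    (k m : ℕ) (h : ℝ[X]) (hf : func N k ζ m h = 0) :
    ∫ z in GN N, (lift N k h).eval z * conj z ^ (N * m + k) = 0 := by
  have h1 : ζ ^ N = 1 := (adm_pow hN).pow_eq_one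
  have h2 := hDec N ζ hN (fun z => (lift N k h).eval z * conj z ^ (N * m + k))
    ((poly_cont _).mul (Complex.continuous_conj.pow _)) (by
      intro z
      have h3 : ζ * conj ζ = 1 := adm_norm hN
      have h4 : conj ζ ^ N = 1 := by rw [← map_pow, h1, map_one]
      simp only [lift_eval, map_mul, mul_pow]
      rw [h1, one_mul, pow_add (conj ζ), pow_mul (conj ζ), h4, one_pow, one_mul]
      have h5 : ζ ^ k * conj ζ ^ k = 1 := by rw [← mul_pow, h3, one_pow]
      linear_combination (z ^ k * (h.map Complex.ofRealHom).eval (z ^ N) *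
        conj z ^ (N * m + k)) * h5)
  rw [h2]
  have h3 := J_lift hCalc hN k m h
  rw [hf, Complex.ofReal_zero, mul_zero] at h3
  have h4 : (((N * m + k : ℕ) : ℂ) + 1) * (conj ζ - ζ) ≠ 0 := by
    refine mul_ne_zero (Nat.cast_add_one_ne_zero _) ?_
    intro h0
    have := congrArg Complex.im h0
    simp only [Complex.sub_im, Complex.conj_im, Complex.zero_im] at this
    have := adm_im hN
    linarith
  have h5 := (mul_eq_zero.mp h3).resolve_left h4
  unfold J at h5
  rw [h5, mul_zero]

lemma int_lift_other (hRot : TaskRot) {N : ℕ} {ζ : ℂ} (hN : Adm N ζ)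
    (k l : ℕ) (h : ℝ[X]) (hl : l % N ≠ k % N) :
    ∫ z in GN N, (lift N k h).eval z * conj z ^ l = 0 := by
  have h1 : ζ ^ N = 1 := (adm_pow hN).pow_eq_one
  have h2 := hRot N ζ hN (fun z => (lift N k h).eval z * conj z ^ l)
  have h3 : (fun z => (fun z => (lift N k h).eval z * conj z ^ l) (ζ * z)) =
      fun z => (ζ ^ k * conj ζ ^ l) * ((lift N k h).eval z * conj z ^ l) := by
    funext z
    simp only [lift_eval, map_mul, mul_pow]
    rw [h1]
    ring_nf
  rw [h3, integral_const_mul] at h2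
  have h4 : (ζ ^ k * conj ζ ^ l - 1) * ∫ z in GN N, (lift N k h).eval z * conj z ^ l = 0 := by
    linear_combination h2
  refine (mul_eq_zero.mp h4).resolve_left fun h0 => hl (adm_modEq hN (sub_eq_zero.mp h0))

/-- Orthogonality on `[0,1]` implies orthogonality on the domain. -/
lemma int_lift_poly (hCalc : TaskCalc) (hDec : TaskDecomp) (hRot : TaskRot) (hDom : TaskDom)
    {N : ℕ} {ζ : ℂ} (hN : Adm N ζ) {k : ℕ} (hk : k < N) (j : ℕ) (h : ℝ[X])
    (ho : Orth N k ζ j h) (r : ℂ[X]) (hr : r.natDegree < j * N + k) :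
    ∫ z in GN N, (lift N k h).eval z * conj (r.eval z) = 0 := by
  have e : (fun z => (lift N k h).eval z * conj (r.eval z)) = fun z =>
      ∑ l ∈ Finset.range (j * N + k), conj (r.coeff l) * ((lift N k h).eval z * conj z ^ l) := by
    funext z
    rw [eval_eq_sum_range' hr, map_sum, Finset.mul_sum]
    refine Finset.sum_congr rfl fun l _ => ?_
    rw [map_mul, map_pow]
    ring
  rw [e, integral_finsetSum]
  · refine Finset.sum_eq_zero fun l hl => ?_
    rw [integral_const_mul]
    by_cases h1 : l % N = k % N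
    · have h2 : N * (l / N) + k = l := by
        have := Nat.div_add_mod l N
        rw [h1, Nat.mod_eq_of_lt hk] at this
        exact this
      have h3 : l / N < j := by
        have h4 := Finset.mem_range.mp hl
        rw [← h2, mul_comm] at h4
        exact lt_of_mul_lt_mul_right (Nat.lt_of_add_lt_add_right h4) (Nat.zero_le _)
      have h5 := int_lift hCalc hDec hN k (l / N) h (ho _ h3)
      rw [h2] at h5
      rw [h5, mul_zero]
    · rw [int_lift_other hRot hN k l h h1, mul_zero]
  · intro l _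
    exact (hDom N ζ hN).1 _
      (continuous_const.mul ((poly_cont _).mul (Complex.continuous_conj.pow _)))

/-- Existence of the real orthogonal polynomial. -/
lemma exists_orth (hSign : ∀ (N : ℕ) (ζ : ℂ), Adm N ζ → ∀ k < N, ∀ (j : ℕ) (h : ℝ[X]), h ≠ 0 →
    Orth N k ζ j h → j ≤ (oddRoots h).card)
    {N : ℕ} {ζ : ℂ} (hN : Adm N ζ) {k : ℕ} (hk : k < N) (j : ℕ) :
    ∃ q : ℝ[X], q.Monic ∧ q.natDegree = j ∧ Orth N k ζ j q := by
  classical
  let Φ : degreeLT ℝ j →ₗ[ℝ] (Fin j → ℝ) :=
    { toFun := fun h i => func N k ζ i (h : ℝ[X])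
      map_add' := fun x y => by
        funext i
        exact func_add N k ζ i x y
      map_smul' := fun c x => by
        funext i
        exact func_smul N k ζ i c x }
  have hinj : Function.Injective Φ := by
    rw [injective_iff_map_eq_zero]
    intro x hx
    by_contra hne
    have hx0 : (x : ℝ[X]) ≠ 0 := fun h => hne (Subtype.ext h)
    have ho : Orth N k ζ j (x : ℝ[X]) := fun m hm => congrFun hx ⟨m, hm⟩
    have h1 := hSign N ζ hN k hk j _ hx0 ho
    have h2 : (oddRoots (x : ℝ[X])).card ≤ (x : ℝ[X]).natDegree := by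
      unfold oddRoots
      exact (Finset.card_filter_le _ _).trans
        ((Multiset.toFinset_card_le _).trans (card_roots' _))
    have h3 : (x : ℝ[X]).natDegree < j := by
      have := mem_degreeLT.mp x.2
      exact (natDegree_lt_iff_degree_lt hx0).mpr this
    omega
  have hdim : Module.finrank ℝ (degreeLT ℝ j) = Module.finrank ℝ (Fin j → ℝ) :=
    LinearEquiv.finrank_eq (degreeLTEquiv ℝ j)
  have : FiniteDimensional ℝ (degreeLT ℝ j) :=
    (degreeLTEquiv ℝ j).symm.finiteDimensional
  have hsurj : Function.Surjective Φ :=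
    (LinearMap.injective_iff_surjective_of_finrank_eq_finrank hdim).mp hinj
  obtain ⟨x, hx⟩ := hsurj (fun i => - func N k ζ i (X ^ j : ℝ[X]))
  have hd : (x : ℝ[X]).degree < j := mem_degreeLT.mp x.2
  have hmon : (X ^ j + (x : ℝ[X])).Monic := monic_X_pow_add hd
  refine ⟨X ^ j + (x : ℝ[X]), hmon, ?_, ?_⟩
  · have hdeg : (X ^ j + (x : ℝ[X])).degree = ((j : ℕ) : WithBot ℕ) := by
      rw [degree_add_eq_left_of_degree_lt (by rwa [degree_X_pow]), degree_X_pow]
    exact natDegree_eq_of_degree_eq_some hdeg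
  · intro m hm
    have h1 := congrFun hx ⟨m, hm⟩
    have h2 : func N k ζ m (x : ℝ[X]) = - func N k ζ m (X ^ j : ℝ[X]) := h1
    change func N k ζ m (X ^ j + (x : ℝ[X])) = 0
    rw [func_add, h2]
    ring

lemma lift_natDegree {N k : ℕ} (hN : 0 < N) {q : ℝ[X]} (hq : q.Monic) :
    (lift N k q).Monic ∧ (lift N k q).natDegree = q.natDegree * N + k := by
  have h1 : (q.map Complex.ofRealHom).Monic := hq.map _
  have h2 : ((q.map Complex.ofRealHom).comp (X ^ N)).Monic := by
    refine h1.comp (monic_X_pow N) ?_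
    rw [natDegree_X_pow]
    exact hN.ne'
  refine ⟨(monic_X_pow k).mul h2, ?_⟩
  rw [lift, (monic_X_pow k).natDegree_mul h2, natDegree_X_pow, natDegree_comp, natDegree_X_pow,
    hq.natDegree_map]
  ring

/-- Uniqueness of the orthogonal polynomial. -/
lemma unique_orth (hDom : TaskDom) {N : ℕ} {ζ : ℂ} (hN : Adm N ζ) {n : ℕ} (hn : 0 < n)
    {p P : ℂ[X]} (hp : p.Monic) (hpn : p.natDegree = n) (hP : P.Monic) (hPn : P.natDegree = n)
    (h1 : ∀ r : ℂ[X], r.natDegree < n → ∫ z in GN N, p.eval z * conj (r.eval z) = 0)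
    (h2 : ∀ r : ℂ[X], r.natDegree < n → ∫ z in GN N, P.eval z * conj (r.eval z) = 0) :
    p = P := by
  have hd : (p - P).natDegree < n := by
    by_cases h0 : p - P = 0
    · rw [h0, natDegree_zero]
      exact hn
    have h3 : (p - P).degree < p.degree := by
      refine degree_sub_lt_left ?_ hp.ne_zero ?_
      · rw [degree_eq_natDegree hp.ne_zero, degree_eq_natDegree hP.ne_zero, hpn, hPn]
      · rw [hp.leadingCoeff, hP.leadingCoeff]
    rw [degree_eq_natDegree hp.ne_zero, hpn] at h3
    exact (natDegree_lt_iff_degree_lt h0).mpr h3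
  have hc : Continuous fun z : ℂ => conj ((p - P).eval z) :=
    Complex.continuous_conj.comp (poly_cont _)
  have h3 : ∫ z in GN N, (p - P).eval z * conj ((p - P).eval z) = 0 := by
    have e : (fun z => (p - P).eval z * conj ((p - P).eval z)) = fun z =>
        p.eval z * conj ((p - P).eval z) - P.eval z * conj ((p - P).eval z) := by
      funext z
      rw [eval_sub, sub_mul]
    have key := integral_sub (f := fun z => p.eval z * conj ((p - P).eval z))
      (g := fun z => P.eval z * conj ((p - P).eval z))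
      ((hDom N ζ hN).1 _ ((poly_cont _).mul hc)) ((hDom N ζ hN).1 _ ((poly_cont _).mul hc))
    rw [e, key, h1 _ hd, h2 _ hd, sub_zero]
  exact sub_eq_zero.mp ((hDom N ζ hN).2 _ h3)

/-- The main theorem from the tasks. -/
theorem main_of (hSign : ∀ (N : ℕ) (ζ : ℂ), Adm N ζ → ∀ k < N, ∀ (j : ℕ) (h : ℝ[X]), h ≠ 0 →
    Orth N k ζ j h → j ≤ (oddRoots h).card) (hInter : TaskInter)
    (hCalc : TaskCalc) (hDec : TaskDecomp) (hRot : TaskRot) (hDom : TaskDom) :
    ∀ N : ℕ, (N = 3 ∨ N = 4) → ∀ k : ℕ, k < N → ∀ j : ℕ, 1 ≤ j →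
    ∀ p p' : Polynomial ℂ,
      p.Monic → p.natDegree = j * N + k →
      (∀ r : Polynomial ℂ, r.natDegree < j * N + k →
        ∫ z in interior (convexHull ℝ {w : ℂ | w ^ N = 1}),
          p.eval z * (starRingEnd ℂ) (r.eval z) = 0) →
      p'.Monic → p'.natDegree = (j + 1) * N + k →
      (∀ r : Polynomial ℂ, r.natDegree < (j + 1) * N + k →
        ∫ z in interior (convexHull ℝ {w : ℂ | w ^ N = 1}),
          p'.eval z * (starRingEnd ℂ) (r.eval z) = 0) →
      ∃ t s : ℕ → ℝ,
        p = X ^ k * (∏ ν ∈ Finset.range j, (X - C ((t ν : ℝ) : ℂ))).comp (X ^ N) ∧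
        p' = X ^ k * (∏ ν ∈ Finset.range (j + 1), (X - C ((s ν : ℝ) : ℂ))).comp (X ^ N) ∧
        0 < s 0 ∧ s j < 1 ∧ ∀ ν, ν < j → s ν < t ν ∧ t ν < s (ν + 1) := by
  intro N hN34 k hk j hj p p' hp hpn hpo hp' hpn' hpo'
  obtain ⟨ζ, hN⟩ : ∃ ζ, Adm N ζ := by
    rcases hN34 with rfl | rfl
    · exact ⟨_, Or.inl ⟨rfl, rfl⟩⟩
    · exact ⟨_, Or.inr ⟨rfl, rfl⟩⟩
  have hN0 := adm_pos hN
  obtain ⟨q, hq, hqn, hqo⟩ := exists_orth hSign hN hk j
  obtain ⟨q', hq', hqn', hqo'⟩ := exists_orth hSign hN hk (j + 1)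
  have e1 : p = lift N k q := by
    refine unique_orth hDom hN (n := j * N + k) (by positivity) hp hpn
      (lift_natDegree hN0 hq).1 (by rw [(lift_natDegree hN0 hq).2, hqn]) hpo ?_
    exact int_lift_poly hCalc hDec hRot hDom hN hk j q hqo
  have e2 : p' = lift N k q' := by
    refine unique_orth hDom hN (n := (j + 1) * N + k) (by positivity) hp' hpn'
      (lift_natDegree hN0 hq').1 (by rw [(lift_natDegree hN0 hq').2, hqn']) hpo' ?_
    exact int_lift_poly hCalc hDec hRot hDom hN hk (j + 1) q' hqo'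
  obtain ⟨t, s, h1, h2, h3, h4, h5⟩ := hInter j hj q q' hq hqn hq' hqn' (by
    intro A B hAB
    refine hSign N ζ hN k hk j _ ?_ ?_
    · intro h0
      by_cases hB : B = 0
      · have hA : A ≠ 0 := hAB.resolve_right (fun h => h hB)
        rw [hB, C_0, zero_mul, add_zero] at h0
        exact (mul_ne_zero (C_ne_zero.mpr hA) hq.ne_zero) h0
      · have h6 := congrArg (fun f : ℝ[X] => f.coeff (j + 1)) h0
        simp only [coeff_add, coeff_C_mul, coeff_zero] at h6
        have h7 : q.coeff (j + 1) = 0 := coeff_eq_zero_of_natDegree_lt (by omega)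
        have h8 : q'.coeff (j + 1) = 1 := by
          have := hq'.coeff_natDegree
          rwa [hqn'] at this
        rw [h7, h8] at h6
        apply hB
        linarith
    · intro m hm
      change func N k ζ m (C A * q + C B * q') = 0
      rw [func_add, func_C_mul, func_C_mul]
      have h6 : func N k ζ m q = 0 := hqo m hm
      have h7 : func N k ζ m q' = 0 := hqo' m (by omega)
      rw [h6, h7]
      ring) (hSign N ζ hN k hk (j + 1) q' hq'.ne_zero hqo')
  refine ⟨t, s, ?_, ?_, h3, h4, h5⟩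
  · rw [e1, lift, h1, Polynomial.map_prod]
    simp
  · rw [e2, lift, h2, Polynomial.map_prod]
    simp

end Pool.Agent.H250R3.Berg
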