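import Mathlib

/-!
# Project H250-BERG (frozen statement S05853): Bergman polynomials on the triangle and the square

Definitions and task statements.
-/

set_option autoImplicit false

open Polynomial MeasureTheory
open scoped ComplexConjugate

namespace Pool.Agent.H250R3.Berg

/-- `N = 3` and `ζ = exp(2πi/3)`, or `N = 4` and `ζ = i`. -/
def Adm (N : ℕ) (ζ : ℂ) : Prop :=
  (N = 3 ∧ ζ = ⟨-1 / 2, √3 / 2⟩) ∨ (N = 4 ∧ ζ = Complex.I)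

/-- The real polynomial `Im (ζ^a (1 + ζ X)^n)`. -/
noncomputable def U (ζ : ℂ) (a n : ℕ) : ℝ[X] :=
  ∑ i ∈ Finset.range (n + 1), C ((n.choose i : ℝ) * (ζ ^ (a + i)).im) * X ^ i

/-- The number of roots in `(0,1)` with multiplicity. -/
noncomputable def nu (p : ℝ[X]) : ℕ :=
  Multiset.card (p.roots.filter (fun x => 0 < x ∧ x < 1))

/-- The points of `(0,1)` which are roots of odd multiplicity. -/
noncomputable def oddRoots (h : ℝ[X]) : Finset ℝ :=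
  h.roots.toFinset.filter (fun x => (0 < x ∧ x < 1) ∧ Odd (h.rootMultiplicity x))

/-- Task 1 (refined Rolle): `E` a set of endpoints at which `p` vanishes. -/
def TaskRolle : Prop :=
  ∀ (p : ℝ[X]) (E : Finset ℝ), p ≠ 0 → derivative p ≠ 0 → E ⊆ {0, 1} → (∀ x ∈ E, p.eval x = 0) →
    nu p + E.card ≤ nu (derivative p) + 1

/-- The combination `∑_{m<j} c_m Im (1+ζX)^(Nm+k+1)`. -/
noncomputable def comb (N k : ℕ) (ζ : ℂ) (j : ℕ) (c : ℕ → ℝ) : ℝ[X] :=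
  ∑ m ∈ Finset.range j, C (c m) * U ζ 0 (N * m + k + 1)

/-- Task 2a: derivatives, endpoint values and the base case. -/
def TaskChebA : Prop :=
  ∀ (N : ℕ) (ζ : ℂ), Adm N ζ → ∀ k < N,
    (∀ (j : ℕ) (c : ℕ → ℝ), derivative^[N] (comb N k ζ (j + 1) c) =
      comb N k ζ j (fun m => c (m + 1) * ((N * (m + 1) + k + 1).descFactorial N : ℝ))) ∧
    (∃ E : ℕ → Finset ℝ, (∀ i, E i ⊆ {0, 1}) ∧ (∑ i ∈ Finset.range N, (E i).card) + 1 = N ∧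
      ∀ (j : ℕ) (c : ℕ → ℝ), ∀ i < N, ∀ x ∈ E i,
        (derivative^[i] (comb N k ζ j c)).eval x = 0) ∧
    (∀ s : ℝ, 0 < s → s < 1 → 0 < (U ζ 0 (k + 1)).eval s)

/-- The Chebyshev property. -/
def Cheb : Prop :=
  ∀ (N : ℕ) (ζ : ℂ), Adm N ζ → ∀ k < N, ∀ (j : ℕ) (c : ℕ → ℝ),
    (∃ m < j, c m ≠ 0) → comb N k ζ j c ≠ 0 ∧ nu (comb N k ζ j c) + 1 ≤ j

/-- Task 2b. -/
def TaskChebB : Prop := TaskRolle → TaskChebA → Cheb

/-- Task 3a (a polynomial with only even roots in `(0,1)` has constant sign there). -/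
def TaskEven : Prop :=
  ∀ p : ℝ[X], p ≠ 0 → (∀ x : ℝ, 0 < x → x < 1 → Even (p.rootMultiplicity x)) →
    (∀ x : ℝ, 0 < x → x < 1 → 0 ≤ p.eval x) ∨ (∀ x : ℝ, 0 < x → x < 1 → p.eval x ≤ 0)

/-- The orthogonality relations on `[0,1]`. -/
def Orth (N k : ℕ) (ζ : ℂ) (j : ℕ) (h : ℝ[X]) : Prop :=
  ∀ m < j, ∫ t in (0 : ℝ)..1, t ^ k * h.eval (t ^ N) * (U ζ 0 (N * m + k + 1)).eval (1 - t) = 0

/-- Task 3b (sign changes). -/
def TaskSign : Prop :=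
  TaskEven → Cheb → ∀ (N : ℕ) (ζ : ℂ), Adm N ζ → ∀ k < N, ∀ (j : ℕ) (h : ℝ[X]), h ≠ 0 →
    Orth N k ζ j h → j ≤ (oddRoots h).card

/-- Task 4 (interlacing). -/
def TaskInter : Prop :=
  ∀ j : ℕ, 1 ≤ j → ∀ q q' : ℝ[X], q.Monic → q.natDegree = j → q'.Monic → q'.natDegree = j + 1 →
    (∀ A B : ℝ, (A ≠ 0 ∨ B ≠ 0) → j ≤ (oddRoots (C A * q + C B * q')).card) →
    j + 1 ≤ (oddRoots q').card →
    ∃ t s : ℕ → ℝ, q = ∏ ν ∈ Finset.range j, (X - C (t ν)) ∧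
      q' = ∏ ν ∈ Finset.range (j + 1), (X - C (s ν)) ∧
      0 < s 0 ∧ s j < 1 ∧ ∀ ν, ν < j → s ν < t ν ∧ t ν < s (ν + 1)

/-- The domain. -/
def GN (N : ℕ) : Set ℂ := interior (convexHull ℝ {w : ℂ | w ^ N = 1})

/-- Task 5a (decomposition into rotated triangles). -/
def TaskDecomp : Prop :=
  ∀ (N : ℕ) (ζ : ℂ), Adm N ζ → ∀ f : ℂ → ℂ, Continuous f → (∀ z, f (ζ * z) = f z) →
    ∫ z in GN N, f z = (N * ζ.im : ℂ) *
      ∫ x in (0 : ℝ)..1, ∫ y in (0 : ℝ)..(1 - x), f ((x : ℂ) + y * ζ)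

/-- Task 5b (rotation invariance of the domain). -/
def TaskRot : Prop :=
  ∀ (N : ℕ) (ζ : ℂ), Adm N ζ → ∀ f : ℂ → ℂ, ∫ z in GN N, f (ζ * z) = ∫ z in GN N, f z

/-- Task 6 (the integral over the triangle, monomials). -/
def TaskCalc : Prop :=
  ∀ (N : ℕ) (ζ : ℂ), Adm N ζ → ∀ a b : ℕ, a ≡ b [MOD N] →
    ((b : ℂ) + 1) * (conj ζ - ζ) * ∫ x in (0 : ℝ)..1, ∫ y in (0 : ℝ)..(1 - x),
        ((x : ℂ) + y * ζ) ^ a * (conj ((x : ℂ) + y * ζ)) ^ b =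
      -2 * Complex.I * ((∫ t in (0 : ℝ)..1, t ^ a * (U ζ 0 (b + 1)).eval (1 - t) : ℝ) : ℂ)

/-- Task 7 (the domain is bounded, open and nonempty). -/
def TaskDom : Prop :=
  ∀ (N : ℕ) (ζ : ℂ), Adm N ζ →
    (∀ f : ℂ → ℂ, Continuous f → IntegrableOn f (GN N)) ∧
    (∀ d : ℂ[X], ∫ z in GN N, d.eval z * conj (d.eval z) = 0 → d = 0)

/-- `eval` of `U`. -/
lemma U_eval (ζ : ℂ) (a n : ℕ) (s : ℝ) :
    (U ζ a n).eval s = (ζ ^ a * (1 + ζ * s) ^ n).im := by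
  have h : ζ ^ a * (1 + ζ * s) ^ n =
      ∑ i ∈ Finset.range (n + 1), ((n.choose i : ℝ) * s ^ i : ℝ) * ζ ^ (a + i) := by
    rw [add_comm (1 : ℂ), add_pow, Finset.mul_sum]
    refine Finset.sum_congr rfl fun i _ => ?_
    push_cast
    rw [mul_pow, pow_add]
    ring
  rw [h, U, eval_finsetSum, Complex.im_sum]
  refine Finset.sum_congr rfl fun i _ => ?_
  rw [Complex.im_ofReal_mul]
  simp only [eval_mul, eval_C, eval_pow, eval_X]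
  ring

end Pool.Agent.H250R3.Berg
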